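import Pool.Agent.W712.RigidSync

/-!
# The rigid synchrony conjecture

For every coupled cell network, every admissible `C¹` vector field and every hyperbolic periodic
orbit, a rigid synchrony pattern is balanced.

The definitions `Network`, `InputIso`, `Ph`, `st`, `Admissible`, `Tup`, `tup` are in
`Pool/Agent/H848R3/RI/Net.lean`, `SmAdm` is in `Pool/Agent/H848R3/RI/Bump.lean`, `IsFund` is in
`Pool/Agent/H848R3/RI/Lin.lean`, and `PeriodicOrbit`, `Hyperbolic` are in
`Pool/Agent/H848R3/RI/Hyp.lean`.

Idea of the proof. Among all small smooth admissible deformations of the vector field and all times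
choose one where the number of pairs of nodes in different states (and of nodes with nonzero
velocity) is maximal. At such a time the relation of being in the same state is balanced: this is
shown by bump perturbations concentrated at the input tuple of a node, and by a count of dimensions
for the nodes that are at rest. A balanced relation is preserved by the flow, so that this relation
is the synchrony pattern of the deformed periodic orbit. It contains the pattern of the original
orbit, which is rigid, and it is contained in it, if only deformations are used that are so small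
that nodes which are not synchronous on the original orbit are not synchronous on the deformed one.
-/

set_option autoImplicit false

open Pool.Agent.H848R3.RI

namespace Pool.Agent.Results.MP_e1010f_an.RigidSynchrony

/-- The synchrony pattern of a curve `x` in the phase space: the nodes `c` and `d` are related if
`x_c(t) = x_d(t)` for all `t`. -/
def Synchronous {N : Network} {V : N.SType → Type} (x : ℝ → Ph N V) (c d : N.Node) : Prop :=
  ∀ t, st (x t) c = st (x t) d

/-- The synchrony pattern of the `T`-periodic orbit `x` of the admissible field `f` is rigid: there
is `δ > 0` such that for every smooth admissible `h` with `‖h‖ < δ`, `‖Dh‖ < δ` everywhere, nodes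
which are synchronous on `x` are synchronous on the nearby periodic orbit of `f + h` (on every
periodic orbit `x'` of `f + h` of period `T'`, `|T' - T| < δ`, that is `δ`-close to `x` on
`[0, T]`). -/
def RigidPattern {N : Network} {V : N.SType → Type} [∀ τ, NormedAddCommGroup (V τ)]
    [∀ τ, NormedSpace ℝ (V τ)] (f : Ph N V → Ph N V) (x : ℝ → Ph N V) (T : ℝ) : Prop :=
  ∃ δ > 0, ∀ h : Ph N V → Ph N V, SmAdm h → (∀ z, ‖h z‖ < δ ∧ ‖fderiv ℝ h z‖ < δ) →
    ∀ (x' : ℝ → Ph N V) (T' : ℝ), PeriodicOrbit (fun z => f z + h z) x' T' → |T' - T| < δ →
      (∀ t ∈ Set.Icc 0 T, ‖x' t - x t‖ < δ) →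
      ∀ c d : N.Node, Synchronous x c d → Synchronous x' c d

/-- A relation on the nodes is balanced: related nodes `c`, `d` have the same type, and there is a
bijection `β : I(c) → I(d)` between their input sets that preserves arrow types, such that the tail
of `e` is related to the tail of `β(e)` for every arrow `e` in `I(c)`. -/
def Balanced (N : Network) (r : N.Node → N.Node → Prop) : Prop :=
  ∀ c d : N.Node, r c d → ∃ β : InputIso N c d,
    ∀ e : N.In c, r (N.tail e.1) (N.tail (β.toEquiv e).1)

/-- **The rigid synchrony conjecture**: for every network, every admissible `C¹` vector field `f`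
and every hyperbolic periodic orbit of `f`, if its synchrony pattern is rigid, then it is
balanced. -/
theorem result (N : Network) (V : N.SType → Type) [∀ τ, NormedAddCommGroup (V τ)]
    [∀ τ, NormedSpace ℝ (V τ)] [∀ τ, FiniteDimensional ℝ (V τ)] [∀ τ, Nontrivial (V τ)]
    (f : Ph N V → Ph N V) (hf : Admissible f) (x : ℝ → Ph N V) (T : ℝ)
    (hx : PeriodicOrbit f x T) (hh : Hyperbolic f x T) (hr : RigidPattern f x T) :
    Balanced N (Synchronous x) := by
  obtain ⟨δ, hδ, hrig⟩ := hr
  have hp : PerOrb f x T := hx.perOrb hf.smooth
  exact Pool.Agent.W712.rigid_sync hf hp (hh.nDeg hf.smooth hp) hδ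
    (fun h x' T' h1 h2 h3 h4 h5 c d hcd => hrig h h1 h2 x' T' h3.periodicOrbit h4 h5 c d hcd)

end Pool.Agent.Results.MP_e1010f_an.RigidSynchrony
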